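import Pool.Agent.helper60.DB.SpecC

/-!
# Row bc:MR (MP_fb2c2a_nt)
-/

namespace Pool.Agent.helper60.DB

open Polynomial Finset

theorem MR : MR_stmt := by
  intro R _ _ g N D hDg
  have h1 : (D : PowerSeries R) ^ 2 * (g + EE g) = (Mn N D : R[X]) := by
    have h2 := congrArg (PowerSeries.derivative R) hDg
    rw [Derivation.leibniz, PowerSeries.derivative_coe, PowerSeries.derivative_coe, smul_eq_mul,
      smul_eq_mul] at h2
    have h3 : ((Mn N D : R[X]) : PowerSeries R) = (N : PowerSeries R) * (D : PowerSeries R) +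
        2 * PowerSeries.X * (((derivative N : R[X]) : PowerSeries R) * (D : PowerSeries R) -
          (N : PowerSeries R) * ((derivative D : R[X]) : PowerSeries R)) := by
      unfold Mn
      rw [Polynomial.coe_add, Polynomial.coe_mul, Polynomial.coe_mul, Polynomial.coe_mul,
        Polynomial.coe_sub, Polynomial.coe_mul, Polynomial.coe_mul, Polynomial.coe_X]
      have h4 : ((2 : R[X]) : PowerSeries R) = 2 := by
        rw [← one_add_one_eq_two, Polynomial.coe_add, Polynomial.coe_one, one_add_one_eq_two]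
      rw [h4]
    rw [h3]
    unfold EE
    linear_combination (D : PowerSeries R) * hDg + 2 * PowerSeries.X * (D : PowerSeries R) * h2 -
      2 * PowerSeries.X * ((derivative D : R[X]) : PowerSeries R) * hDg
  refine ⟨h1, ?_⟩
  intro A B A' B' π y u hy hml
  have sq := hy.sq
  have cur := hml.cur
  have ode := hml.ode
  apply Polynomial.coe_injective R
  have h5 : ((qf A B : R[X]) : PowerSeries R) = y ^ 2 := by
    rw [sq]
    unfold qf
    simp [Polynomial.coe_add, Polynomial.coe_mul, Polynomial.coe_pow]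
  rw [Polynomial.coe_mul, Polynomial.coe_pow, ← h1, h5]
  have h6 : ((C (π ^ 2) * (D ^ 4 + C A' * X * N ^ 2 * D ^ 2 + C B' * X ^ 2 * N ^ 4) : R[X]) :
      PowerSeries R) = PowerSeries.C π ^ 2 * ((D : PowerSeries R) ^ 4 +
        PowerSeries.C A' * PowerSeries.X * (N : PowerSeries R) ^ 2 * (D : PowerSeries R) ^ 2 +
        PowerSeries.C B' * PowerSeries.X ^ 2 * (N : PowerSeries R) ^ 4) := by
    simp [Polynomial.coe_add, Polynomial.coe_mul, Polynomial.coe_pow]
  rw [h6, ← hDg]
  linear_combination (D : PowerSeries R) ^ 4 * (y * (g + EE g) + PowerSeries.C π * u) * ode +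
    (D : PowerSeries R) ^ 4 * PowerSeries.C π ^ 2 * cur

end Pool.Agent.helper60.DB
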